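import Pool.Agent.Lib_helper75.Miller.Dec

/-!
Closing off under a function of conditions and measurable functions, at an ordinal of
cofinality `ω₁`.
-/

set_option autoImplicit false

universe u

namespace Pool.Agent.Miller

open Ordinal

open Classical in
/-- The point with the given coordinates below `α` and zero from `α` on. -/
noncomputable def extPt (α : Ordinal.{0}) (y : Set.Iio α → ℕ → ℕ) : Pt Ordinal.{0} :=
  fun γ => if h : γ < α then y ⟨γ, h⟩ else fun _ => 0

theorem agree_extPt {α : Ordinal.{0}} (z : Pt Ordinal.{0}) :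
    Agree α (extPt α fun γ => z γ) z := by
  intro γ hγ
  unfold extPt
  rw [dif_pos hγ]

theorem small_cond (α : Ordinal.{0}) :
    Small.{0} {K : Cond Ordinal.{0} // K.In (Set.Iio α)} := by
  refine small_of_injective (β := Set.Iio α → (Set.Iio α → ℕ → ℕ) → Node → Node)
    (f := fun K β y s => K.1.code β (extPt α y) s) ?_
  intro K L h
  refine Subtype.ext (Cond.ext' fun β z => ?_)
  by_cases hβ : β < α
  · have h1 := congrFun (congrFun h ⟨β, hβ⟩) (fun γ => z γ)
    have h2 : Agree β (extPt α fun γ => z γ) z := (agree_extPt z).mono hβ.le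
    have h3 : K.1.code β (extPt α fun γ => z γ) = L.1.code β (extPt α fun γ => z γ) := h1
    rwa [K.1.dep β _ _ h2, L.1.dep β _ _ h2] at h3
  · rw [K.2 β hβ, L.2 β hβ]

theorem small_fun (Y : Type) (α : Ordinal.{0}) :
    Small.{0} {f : Pt Ordinal.{0} → Y // ∀ z z', Agree α z z' → f z = f z'} := by
  refine small_of_injective (β := (Set.Iio α → ℕ → ℕ) → Y)
    (f := fun f y => f.1 (extPt α y)) ?_
  intro f f' h
  refine Subtype.ext (funext fun z => ?_)
  have h1 : f.1 (extPt α fun γ => z γ) = f'.1 (extPt α fun γ => z γ) :=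
    congrFun h (fun γ => z γ)
  rwa [f.2 _ _ (agree_extPt z), f'.2 _ _ (agree_extPt z)] at h1

theorem exists_bound {Y : Type} (G : Cond Ordinal.{0} → (Pt Ordinal.{0} → Y) → Ordinal.{0})
    (α : Ordinal.{0}) :
    ∃ b, ∀ K f, K.In (Set.Iio α) → (∀ z z', Agree α z z' → f z = f z') → G K f < b := by
  have := small_cond α
  have := small_fun Y α
  refine ⟨⨆ p : {K : Cond Ordinal.{0} // K.In (Set.Iio α)} ×
    {f : Pt Ordinal.{0} → Y // ∀ z z', Agree α z z' → f z = f z'}, G p.1.1 p.2.1 + 1, ?_⟩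
  intro K f hK hf
  exact Ordinal.lt_iSup_add_one (fun p : {K : Cond Ordinal.{0} // K.In (Set.Iio α)} ×
    {f : Pt Ordinal.{0} → Y // ∀ z z', Agree α z z' → f z = f z'} => G p.1.1 p.2.1)
    (⟨K, hK⟩, ⟨f, hf⟩)

/-- The strictly increasing iteration of a function on the ordinals. -/
noncomputable def iterUp (g : Ordinal.{0} → Ordinal.{0}) (i : Ordinal.{0}) : Ordinal.{0} :=
  ⨆ j : Set.Iio i, max (iterUp g j.1) (g (iterUp g j.1)) + 1
termination_by i
decreasing_by
  all_goals exact j.2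

theorem max_lt_iterUp (g : Ordinal.{0} → Ordinal.{0}) {j i : Ordinal.{0}} (h : j < i) :
    max (iterUp g j) (g (iterUp g j)) < iterUp g i := by
  rw [iterUp.eq_def g i]
  exact Ordinal.lt_iSup_add_one (fun j : Set.Iio i => max (iterUp g j.1) (g (iterUp g j.1)))
    ⟨j, h⟩

theorem iterUp_lt (g : Ordinal.{0} → Ordinal.{0}) {j i : Ordinal.{0}} (h : j < i) :
    iterUp g j < iterUp g i := (le_max_left _ _).trans_lt (max_lt_iterUp g h)

theorem lt_iterUp (g : Ordinal.{0} → Ordinal.{0}) {j i : Ordinal.{0}} (h : j < i) :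
    g (iterUp g j) < iterUp g i := (le_max_right _ _).trans_lt (max_lt_iterUp g h)

theorem iterUp_le (g : Ordinal.{0} → Ordinal.{0}) {j i : Ordinal.{0}} (h : j ≤ i) :
    iterUp g j ≤ iterUp g i := by
  rcases h.eq_or_lt with rfl | h
  · exact le_rfl
  · exact (iterUp_lt g h).le

theorem exists_closed {Y : Type} [MeasurableSpace Y] [MeasurableSpace.CountablyGenerated Y]
    [MeasurableSpace.SeparatesPoints Y]
    (G : Cond Ordinal.{0} → (Pt Ordinal.{0} → Y) → Ordinal.{0}) (δ₀ : Ordinal.{0}) :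
    ∃ δ, δ₀ ≤ δ ∧
      (∀ C : Set Ordinal.{0}, C.Countable → C ⊆ Set.Iio δ → ∃ β < δ, C ⊆ Set.Iio β) ∧
      ∀ K f, K.In (Set.Iio δ) → Measurable f → (∀ z z', Agree δ z z' → f z = f z') →
        G K f < δ := by
  choose b hb using exists_bound G
  let g : Ordinal.{0} → Ordinal.{0} := fun α => max (b α) δ₀
  let δ : Ordinal.{0} := ⨆ i : Set.Iio ω₁, iterUp g i.1
  have hlim : Order.IsSuccLimit (ω₁ : Ordinal.{0}) := Cardinal.isSuccLimit_omega 1
  have hδ : ∀ i < (ω₁ : Ordinal.{0}), iterUp g i < δ := by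
    intro i hi
    have h1 : Order.succ i < ω₁ := hlim.succ_lt hi
    exact (iterUp_lt g (Order.lt_succ i)).trans_le
      (Ordinal.le_iSup (fun i : Set.Iio (ω₁ : Ordinal.{0}) => iterUp g i.1) ⟨_, h1⟩)
  have hδ2 : ∀ x < δ, ∃ i < (ω₁ : Ordinal.{0}), x < iterUp g i := by
    intro x hx
    obtain ⟨i, hi⟩ := Ordinal.lt_iSup_iff.mp hx
    exact ⟨i.1, i.2, hi⟩
  have hcount : ∀ C : Set Ordinal.{0}, C.Countable → C ⊆ Set.Iio δ → ∃ β < δ, C ⊆ Set.Iio β := by
    intro C hC hCδ
    have h1 : ∀ c : C, ∃ i < (ω₁ : Ordinal.{0}), c.1 < iterUp g i := fun c => hδ2 _ (hCδ c.2)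
    choose i hi hi2 using h1
    have : Countable C := hC.to_subtype
    have h2 : (⨆ c : C, i c) < ω₁ := Ordinal.iSup_lt_omega_one hi
    refine ⟨iterUp g (⨆ c : C, i c), hδ _ h2, fun c hc => ?_⟩
    have : Small.{0} C := inferInstance
    exact (hi2 ⟨c, hc⟩).trans_le (iterUp_le g (Ordinal.le_iSup i ⟨c, hc⟩))
  refine ⟨δ, ?_, hcount, ?_⟩
  · have h0 : (0 : Ordinal.{0}) < ω₁ := (Ordinal.omega_pos 1)
    have h1 : (Order.succ (0 : Ordinal.{0})) < ω₁ := hlim.succ_lt h0
    have h2 : δ₀ ≤ g (iterUp g 0) := le_max_right _ _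
    exact h2.trans ((lt_iterUp g (Order.lt_succ 0)).trans (hδ _ h1)).le
  · intro K f hK hf hfd
    -- the support of K
    obtain ⟨β₁, hβ₁, hK1⟩ := hcount {β | ∃ z, K.code β z ≠ id} K.supp (by
      rintro β ⟨z, hz⟩
      by_contra hβ
      exact hz (hK β hβ z))
    -- the coordinates of f
    obtain ⟨C, hC, hCf⟩ := exists_countable_dep_fun hf
    obtain ⟨β₂, hβ₂, hK2⟩ := hcount (C ∩ Set.Iio δ) (hC.mono Set.inter_subset_left)
      Set.inter_subset_right
    obtain ⟨i, hi, hi2⟩ := hδ2 (max β₁ β₂) (max_lt hβ₁ hβ₂)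
    have hKi : K.In (Set.Iio (iterUp g i)) := by
      intro β hβ z
      by_contra hne
      apply hβ
      exact (hK1 ⟨z, hne⟩ : β < β₁).trans ((le_max_left _ _).trans_lt hi2)
    have hfi : ∀ z z', Agree (iterUp g i) z z' → f z = f z' := by
      classical
      intro z z' h
      let y : Pt Ordinal.{0} := fun γ => if γ < δ then z γ else z' γ
      have h1 : f z = f y := by
        refine hfd z y fun γ hγ => ?_
        simp only [y, if_pos hγ]
      rw [h1]
      refine hCf y z' fun γ hγ => ?_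
      by_cases hγδ : γ < δ
      · simp only [y, if_pos hγδ]
        refine h γ ?_
        exact (hK2 ⟨hγ, hγδ⟩ : γ < β₂).trans ((le_max_right _ _).trans_lt hi2)
      · simp only [y, if_neg hγδ]
    have h1 : G K f < b (iterUp g i) := hb _ K f hKi hfi
    have h2 : b (iterUp g i) ≤ g (iterUp g i) := le_max_left _ _
    have h3 : Order.succ i < ω₁ := hlim.succ_lt hi
    exact (h1.trans_le h2).trans ((lt_iterUp g (Order.lt_succ i)).trans (hδ _ h3))

end Pool.Agent.Miller
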