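import Pool.Agent.Lib_helper75.Miller.Dec

/-!
Countable covering: countably many names for ground model objects have countable sets of possible
values below an extension.
-/

set_option autoImplicit false

universe u

namespace Pool.Agent.Miller

theorem exists_countable_cover {W : Type u} [LinearOrder W] [WellFoundedLT W] {ι : Type*}
    (Φ : ℕ → Cond W → ι → Prop) (hmul : ∀ m K L i, Φ m K i → Φ m (K * L) i) (H : Cond W)
    (hd : ∀ m L, ∃ M i, Φ m (H * L * M) i) :
    ∃ K, ∃ C : ℕ → ℕ → ι, ∀ m L, ∃ M k, Φ m (H * K * L * M) (C m k) := by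
  let D : ℕ → ℕ → Set (Cond W) := fun m _ => {L | ∃ i, Φ m (H * L) i}
  have hd' : ∀ m i, DenseIn Set.univ (D m i) := by
    intro m i L _
    obtain ⟨M, a, h⟩ := hd m L
    exact ⟨M, M.in_univ, a, by rwa [← mul_assoc]⟩
  have ho : ∀ m i, OpenIn Set.univ (D m i) := by
    rintro m i L ⟨a, h⟩ M -
    exact ⟨a, by rw [← mul_assoc]; exact hmul m _ _ _ h⟩
  obtain ⟨K, -, -, hK⟩ := readable_all isLowerSet_univ ∅ (by simp) 1 one_pos D hd' ho
  choose j hj _ hr using hK
  choose G hG _ l hl using hr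
  choose C hC using hG
  refine ⟨K, C, fun m L => ?_⟩
  obtain ⟨M, i, hM⟩ := exists_const (hj m) L
  obtain ⟨M', -, h1, h2⟩ := (hl m i).lift (L * M) (Cond.in_univ _) hM
  refine ⟨M, i, ?_⟩
  have h3 : H * K * L * M = H * G m i * M' := by
    rw [mul_assoc (H * K), mul_assoc H K, h1, mul_assoc]
  rw [h3]
  exact hmul m _ _ _ (hC m i)

end Pool.Agent.Miller
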