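import Pool.Agent.Lib_helper75.Miller.Bound

/-!
A family of `ω₁` names for reals which can be covered by short intervals.
-/

set_option autoImplicit false

universe u

namespace Pool.Agent.Miller

open Ordinal Cardinal

theorem countable_Iio_of_lt {β : Ordinal.{0}} (h : β < ω₁) : (Set.Iio β).Countable := by
  rw [← Cardinal.le_aleph0_iff_set_countable, Cardinal.mk_Iio_ordinal, Cardinal.lift_le_aleph0,
    ← Cardinal.lt_aleph_one_iff]
  exact Cardinal.lt_omega_iff_card_lt.1 h

theorem not_countable_Iio : ¬ (Set.Iio (ω₁ : Ordinal.{0})).Countable := by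
  intro h
  rw [← Cardinal.le_aleph0_iff_set_countable, Cardinal.mk_Iio_ordinal, Cardinal.lift_le_aleph0,
    ← Cardinal.lt_aleph_one_iff, ← Cardinal.lt_omega_iff_card_lt] at h
  exact lt_irrefl _ h

theorem exists_enumD : ∃ D : Ordinal.{0} → ℕ → Ordinal.{0},
    ∀ α β, α < β → β < ω₁ → ∃ k, D β k = α := by
  have h : ∀ β : Ordinal.{0}, ∃ f : ℕ → Ordinal.{0}, β < ω₁ → ∀ α < β, ∃ k, f k = α := by
    intro β
    by_cases hβ : β < ω₁
    · obtain ⟨f, hf⟩ := Set.countable_iff_exists_subset_range.1 (countable_Iio_of_lt hβ)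
      exact ⟨f, fun _ α hα => hf hα⟩
    · exact ⟨fun _ => 0, fun h => absurd h hβ⟩
  choose D hD using h
  exact ⟨D, fun α β h1 h2 => hD β h2 α h1⟩

/-! ### The increasing family of sequences -/

/-- The sequences `x_β`: strictly increasing and eventually above all the earlier ones. -/
noncomputable def xs (D : Ordinal.{0} → ℕ → Ordinal.{0}) (β : Ordinal.{0}) (z : Pt Ordinal.{0})
    (n : ℕ) : ℕ :=
  ∑ m ∈ Finset.range (n + 1), (1 + z β m +
    ∑ k ∈ Finset.range (m + 1), if _h : D β k < β then xs D (D β k) z m else 0)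
termination_by β
decreasing_by
  all_goals assumption

/-- The increments of the sequences. -/
noncomputable def tt (D : Ordinal.{0} → ℕ → Ordinal.{0}) (β : Ordinal.{0}) (z : Pt Ordinal.{0})
    (m : ℕ) : ℕ :=
  1 + z β m + ∑ k ∈ Finset.range (m + 1), if _h : D β k < β then xs D (D β k) z m else 0

theorem xs_eq (D : Ordinal.{0} → ℕ → Ordinal.{0}) (β : Ordinal.{0}) (z : Pt Ordinal.{0}) (n : ℕ) :
    xs D β z n = ∑ m ∈ Finset.range (n + 1), tt D β z m := by
  rw [xs.eq_def]
  rfl

theorem tt_le_xs (D : Ordinal.{0} → ℕ → Ordinal.{0}) (β : Ordinal.{0}) (z : Pt Ordinal.{0})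
    (n : ℕ) : tt D β z n ≤ xs D β z n := by
  rw [xs_eq]
  exact Finset.single_le_sum (f := fun m => tt D β z m) (fun _ _ => Nat.zero_le _)
    (Finset.self_mem_range_succ n)

theorem lt_xs (D : Ordinal.{0} → ℕ → Ordinal.{0}) (β : Ordinal.{0}) (z : Pt Ordinal.{0})
    (n : ℕ) : z β n < xs D β z n := by
  refine lt_of_lt_of_le ?_ (tt_le_xs D β z n)
  unfold tt
  omega

theorem strictMono_xs (D : Ordinal.{0} → ℕ → Ordinal.{0}) (β : Ordinal.{0}) (z : Pt Ordinal.{0}) :
    StrictMono (xs D β z) := by
  refine strictMono_nat_of_lt_succ fun n => ?_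
  rw [xs_eq D β z (n + 1), Finset.sum_range_succ, ← xs_eq]
  unfold tt
  omega

theorem xs_lt_xs {D : Ordinal.{0} → ℕ → Ordinal.{0}} {α β : Ordinal.{0}} {k₀ : ℕ}
    (hk : D β k₀ = α) (hα : α < β) (z : Pt Ordinal.{0}) {n : ℕ} (hn : k₀ ≤ n) :
    xs D α z n < xs D β z n := by
  refine lt_of_lt_of_le ?_ (tt_le_xs D β z n)
  unfold tt
  have h1 : (if _h : D β k₀ < β then xs D (D β k₀) z n else 0) ≤
      ∑ k ∈ Finset.range (n + 1), if _h : D β k < β then xs D (D β k) z n else 0 :=
    Finset.single_le_sum (f := fun k => if _h : D β k < β then xs D (D β k) z n else 0)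
      (fun _ _ => Nat.zero_le _) (Finset.mem_range.mpr (by omega))
  rw [hk, dif_pos hα] at h1
  omega

theorem measurable_xs (D : Ordinal.{0} → ℕ → Ordinal.{0}) (β : Ordinal.{0}) (n : ℕ) :
    Measurable fun z => xs D β z n := by
  induction β using WellFoundedLT.induction generalizing n with
  | ind β ih =>
    simp only [xs_eq]
    refine Finset.measurable_sum _ fun m _ => ?_
    unfold tt
    have hz : Measurable fun z : Pt Ordinal.{0} => z β m :=
      (measurable_pi_apply m : Measurable fun y : ℕ → ℕ => y m).comp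
        (measurable_pi_apply β : Measurable fun z : Pt Ordinal.{0} => z β)
    refine (measurable_const.add hz).add ?_
    refine Finset.measurable_sum _ fun k _ => ?_
    by_cases h : D β k < β
    · simp only [dif_pos h]
      exact ih _ h m
    · simp only [dif_neg h]
      exact measurable_const

/-! ### Reals coded by strictly increasing sequences -/

/-- The real with the binary digits at the values of the sequence. -/
noncomputable def rr (x : ℕ → ℕ) : ℝ := ∑' n, (1 / 2 : ℝ) ^ x n

theorem summable_rr {x : ℕ → ℕ} (hx : StrictMono x) : Summable fun n => (1 / 2 : ℝ) ^ x n :=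
  Summable.of_nonneg_of_le (fun _ => by positivity)
    (fun n => pow_le_pow_of_le_one (by norm_num) (by norm_num) (hx.le_apply))
    summable_geometric_two

theorem rr_split {x : ℕ → ℕ} (hx : StrictMono x) (n : ℕ) :
    rr x = ∑ i ∈ Finset.range n, (1 / 2 : ℝ) ^ x i + ∑' i, (1 / 2 : ℝ) ^ x (i + n) :=
  ((summable_rr hx).sum_add_tsum_nat_add n).symm

theorem lt_rr {x : ℕ → ℕ} (hx : StrictMono x) (n : ℕ) :
    ∑ i ∈ Finset.range n, (1 / 2 : ℝ) ^ x i < rr x := by
  rw [rr_split hx n]
  have h1 : 0 < ∑' i, (1 / 2 : ℝ) ^ x (i + n) :=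
    ((summable_nat_add_iff n).2 (summable_rr hx)).tsum_pos (fun _ => by positivity) 0
      (by positivity)
  linarith

theorem rr_le {x : ℕ → ℕ} (hx : StrictMono x) (n : ℕ) :
    rr x ≤ ∑ i ∈ Finset.range n, (1 / 2 : ℝ) ^ x i + 2 * (1 / 2 : ℝ) ^ x n := by
  rw [rr_split hx n]
  have h1 : ∑' i, (1 / 2 : ℝ) ^ x (i + n) ≤ ∑' i : ℕ, (1 / 2 : ℝ) ^ x n * (1 / 2 : ℝ) ^ i := by
    refine Summable.tsum_le_tsum (fun i => ?_) ((summable_nat_add_iff n).2 (summable_rr hx))
      (summable_geometric_two.mul_left _)
    rw [← pow_add]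
    refine pow_le_pow_of_le_one (by norm_num) (by norm_num) ?_
    have := hx.add_le_nat i n
    omega
  rw [tsum_mul_left, tsum_geometric_two] at h1
  linarith

theorem rr_lt_rr {x y : ℕ → ℕ} (hx : StrictMono x) (hy : StrictMono y) {n : ℕ}
    (h : ∀ i < n, x i = y i) (hn : x n < y n) : rr y < rr x := by
  have h1 := lt_rr hx (n + 1)
  rw [Finset.sum_range_succ] at h1
  have h2 := rr_le hy n
  have h3 : ∑ i ∈ Finset.range n, (1 / 2 : ℝ) ^ x i = ∑ i ∈ Finset.range n, (1 / 2 : ℝ) ^ y i :=
    Finset.sum_congr rfl fun i hi => by rw [h i (Finset.mem_range.mp hi)]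
  have h4 : (1 / 2 : ℝ) ^ y n ≤ (1 / 2 : ℝ) ^ (x n + 1) :=
    pow_le_pow_of_le_one (by norm_num) (by norm_num) hn
  rw [pow_succ] at h4
  linarith

theorem rr_inj {x y : ℕ → ℕ} (hx : StrictMono x) (hy : StrictMono y) (h : rr x = rr y) :
    x = y := by
  classical
  by_contra hne
  have h1 : ∃ n, x n ≠ y n := by
    by_contra hcon
    push Not at hcon
    exact hne (funext hcon)
  have h2 : ∀ i < Nat.find h1, x i = y i := fun i hi => not_not.mp (Nat.find_min h1 hi)
  rcases lt_or_gt_of_ne (Nat.find_spec h1) with h3 | h3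
  · exact absurd h (rr_lt_rr hx hy h2 h3).ne'
  · exact absurd h (rr_lt_rr hy hx (fun i hi => (h2 i hi).symm) h3).ne

theorem measurable_rr {Y : Type*} [MeasurableSpace Y] {x : Y → ℕ → ℕ}
    (hx : ∀ n, Measurable fun a => x a n) (hs : ∀ a, StrictMono (x a)) :
    Measurable fun a => rr (x a) := by
  refine measurable_of_tendsto_metrizable (f := fun n a => ∑ i ∈ Finset.range n,
    (1 / 2 : ℝ) ^ x a i) (fun n => ?_) ?_
  · refine Finset.measurable_sum _ fun i _ => ?_
    exact (Measurable.of_discrete (f := fun m : ℕ => (1 / 2 : ℝ) ^ m)).comp (hx i)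
  · rw [tendsto_pi_nhds]
    intro a
    exact (summable_rr (hs a)).hasSum.tendsto_sum_nat

/-! ### Nodes -/

/-- The rational coded by a node. -/
noncomputable def cval (s : Node) : ℝ := (s.map fun a => (1 / 2 : ℝ) ^ a).sum

theorem cval_res (x : ℕ → ℕ) (n : ℕ) :
    cval (res x n) = ∑ i ∈ Finset.range n, (1 / 2 : ℝ) ^ x i := by
  induction n with
  | zero => rfl
  | succ n ih =>
    rw [Finset.sum_range_succ, ← ih, res_succ]
    unfold cval
    rw [List.map_cons, List.sum_cons, add_comm]

/-- The nodes of length `n` with all the terms at most `b`. -/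
def boxN : ℕ → ℕ → Finset Node
  | 0, _ => {[]}
  | n + 1, b => ((Finset.range (b + 1)) ×ˢ boxN n b).image fun p => p.1 :: p.2

theorem res_mem_boxN {x : ℕ → ℕ} {n b : ℕ} (h : ∀ i < n, x i ≤ b) : res x n ∈ boxN n b := by
  induction n with
  | zero =>
    unfold boxN
    exact Finset.mem_singleton_self _
  | succ n ih =>
    unfold boxN
    rw [Finset.mem_image]
    refine ⟨(x n, res x n), Finset.mem_product.mpr ⟨?_, ih fun i hi => h i (by omega)⟩, ?_⟩
    · exact Finset.mem_range.mpr (Nat.lt_succ_of_le (h n (by omega)))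
    · rw [res_succ]

/-- The function that must be exceeded. -/
def capF (h : Node → ℕ) : ℕ → ℕ
  | 0 => h []
  | k + 1 => max (capF h k) ((boxN (k + 1) (capF h k)).sup h)

theorem capF_mono (h : Node → ℕ) : Monotone (capF h) :=
  monotone_nat_of_le_succ fun _ => le_max_left _ _

theorem exists_lt_of_capF {h : Node → ℕ} {x : ℕ → ℕ} (hx : ∃ k, capF h k < x k) :
    ∃ k, h (res x k) < x k := by
  classical
  have h1 := Nat.find_spec hx
  have h2 : ∀ i < Nat.find hx, x i ≤ capF h i := fun i hi => not_lt.mp (Nat.find_min hx hi)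
  refine ⟨Nat.find hx, ?_⟩
  revert h1 h2
  cases Nat.find hx with
  | zero => intro h1 _; exact h1
  | succ k =>
    intro h1 h2
    refine lt_of_le_of_lt ?_ h1
    refine le_trans ?_ (le_max_right _ _)
    refine Finset.le_sup (res_mem_boxN fun i hi => ?_)
    exact (h2 i hi).trans (capF_mono h (by omega))

theorem measurable_capF {Y : Type*} [MeasurableSpace Y] {h : Y → Node → ℕ}
    (hh : ∀ s, Measurable fun a => h a s) (k : ℕ) : Measurable fun a => capF (h a) k := by
  induction k with
  | zero => exact hh []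
  | succ k ih =>
    have h1 : Measurable fun a => (boxN (k + 1) (capF (h a) k)).sup (h a) := by
      refine measurable_comp_countable (f := fun a (b : ℕ) => (boxN (k + 1) b).sup (h a))
        (fun b => ?_) ih
      generalize boxN (k + 1) b = S
      induction S using Finset.induction_on with
      | empty => exact measurable_const
      | insert s S _ ihS =>
        simp only [Finset.sup_insert]
        exact (hh s).sup ihS
    exact ih.sup h1

/-! ### The family -/

theorem exists_rho : ∃ ρ : Ordinal.{0} → Pt Ordinal.{0} → ℝ, (∀ β < ω₁, Measurable (ρ β)) ∧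
    (∀ α β, α < β → β < ω₁ → ∀ z, ρ α z ≠ ρ β z) ∧
    ∀ (H : Cond Ordinal.{0}) (ε : Pt Ordinal.{0} → ℕ → ℝ), Measurable ε → (∀ z n, 0 < ε z n) →
      ∃ (L : Cond Ordinal.{0}) (l r : Pt Ordinal.{0} → ℕ → ℝ), Measurable l ∧ Measurable r ∧
        (∀ z n, r z n - l z n < ε z n) ∧
        ∀ β < ω₁, ∀ z, ∃ n, l ((H * L).eval z) n < ρ β ((H * L).eval z) ∧
          ρ β ((H * L).eval z) < r ((H * L).eval z) n := by
  classical
  obtain ⟨D, hD⟩ := exists_enumD
  have hmeas : ∀ β, Measurable fun z => rr (xs D β z) := fun β =>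
    measurable_rr (fun n => measurable_xs D β n) (fun z => strictMono_xs D β z)
  refine ⟨fun β z => rr (xs D β z), fun β _ => hmeas β, ?_, ?_⟩
  · intro α β hα hβ z heq
    obtain ⟨k, hk⟩ := hD α β hα hβ
    have h1 := rr_inj (strictMono_xs D α z) (strictMono_xs D β z) heq
    have h2 := xs_lt_xs hk hα z (le_refl k)
    rw [h1] at h2
    exact lt_irrefl _ h2
  · intro H ε hε hpos
    -- the function on the nodes
    let P : Pt Ordinal.{0} → Node → ℕ → Prop := fun z s m =>
      2 * (1 / 2 : ℝ) ^ m < ε z (2 * Encodable.encode s) / 3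
    have hPex : ∀ z s, ∃ m, P z s m := by
      intro z s
      have h1 : 0 < ε z (2 * Encodable.encode s) / 6 := by
        have := hpos z (2 * Encodable.encode s)
        positivity
      obtain ⟨m, hm⟩ := exists_pow_lt_of_lt_one h1 (show (1 / 2 : ℝ) < 1 by norm_num)
      refine ⟨m, ?_⟩
      show 2 * (1 / 2 : ℝ) ^ m < _
      linarith
    let h : Pt Ordinal.{0} → Node → ℕ := fun z s => pick (P z s)
    have hεm : ∀ n, Measurable fun z => ε z n := fun n => (measurable_pi_apply n).comp hε
    have hh : ∀ s, Measurable fun z => h z s := by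
      intro s
      refine measurable_pick fun m => ?_
      exact measurableSet_lt measurable_const ((hεm _).div_const 3)
    have hf : Measurable fun z => capF (h z) := measurable_pi_lambda _ fun k => measurable_capF hh k
    obtain ⟨β₀, hβ₀, L, hL⟩ := exists_unbounded hf H not_countable_Iio
    have hβ₀' : β₀ < ω₁ := hβ₀
    -- the centres of the intervals
    let cen : Pt Ordinal.{0} → ℕ → ℝ := fun z n =>
      if n % 2 = 0 then cval ((Encodable.decode (α := Node) (n / 2)).getD [])
      else rr (xs D (if n / 2 = 0 then β₀ else D β₀ (n / 2 - 1)) z)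
    have hcen : ∀ n, Measurable fun z => cen z n := by
      intro n
      by_cases hn : n % 2 = 0
      · simp only [cen, if_pos hn]
        exact measurable_const
      · simp only [cen, if_neg hn]
        exact hmeas _
    refine ⟨L, fun z n => cen z n - ε z n / 3, fun z n => cen z n + ε z n / 3,
      measurable_pi_lambda _ fun n => (hcen n).sub ((hεm n).div_const 3),
      measurable_pi_lambda _ fun n => (hcen n).add ((hεm n).div_const 3), ?_, ?_⟩
    · intro z n
      have := hpos z n
      show cen z n + ε z n / 3 - (cen z n - ε z n / 3) < ε z n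
      linarith
    · intro β hβ z
      set y := (H * L).eval z with hy
      by_cases hlt : β < β₀
      · obtain ⟨k, hk⟩ := hD β β₀ hlt hβ₀'
        refine ⟨2 * (k + 1) + 1, ?_⟩
        have h1 : cen y (2 * (k + 1) + 1) = rr (xs D β y) := by
          have e1 : (2 * (k + 1) + 1) % 2 ≠ 0 := by omega
          have e2 : (2 * (k + 1) + 1) / 2 = k + 1 := by omega
          simp only [cen, if_neg e1, e2, Nat.add_sub_cancel, hk]
          simp
        have h2 := hpos y (2 * (k + 1) + 1)
        show cen y (2 * (k + 1) + 1) - ε y (2 * (k + 1) + 1) / 3 < rr (xs D β y) ∧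
          rr (xs D β y) < cen y (2 * (k + 1) + 1) + ε y (2 * (k + 1) + 1) / 3
        rw [h1]
        constructor <;> linarith
      · -- the sequence exceeds the function
        have hge : β₀ ≤ β := not_lt.mp hlt
        have h1 : ∃ k, capF (h y) k < xs D β y k := by
          rcases hge.eq_or_lt with heq | hgt
          · obtain ⟨n, -, hn⟩ := hL z 0
            rw [← hy] at hn
            rw [← heq]
            exact ⟨n, hn.trans (lt_xs D β₀ y n)⟩
          · obtain ⟨k, hk⟩ := hD β₀ β hgt hβ
            obtain ⟨n, hkn, hn⟩ := hL z k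
            rw [← hy] at hn
            exact ⟨n, (hn.trans (lt_xs D β₀ y n)).trans (xs_lt_xs hk hgt y hkn)⟩
        obtain ⟨k, hk⟩ := exists_lt_of_capF h1
        set s := res (xs D β y) k with hs
        have hPs : P y s (h y s) := pick_spec (hPex y s)
        have h2 : 2 * (1 / 2 : ℝ) ^ (xs D β y k) < ε y (2 * Encodable.encode s) / 3 := by
          have h3 : (1 / 2 : ℝ) ^ (xs D β y k) ≤ (1 / 2 : ℝ) ^ (h y s) :=
            pow_le_pow_of_le_one (by norm_num) (by norm_num) hk.le
          have h4 : 2 * (1 / 2 : ℝ) ^ (h y s) < ε y (2 * Encodable.encode s) / 3 := hPs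
          linarith
        have h3 := lt_rr (strictMono_xs D β y) k
        have h4 := rr_le (strictMono_xs D β y) k
        rw [← cval_res, ← hs] at h3 h4
        refine ⟨2 * Encodable.encode s, ?_⟩
        have h5 : cen y (2 * Encodable.encode s) = cval s := by
          have e1 : (2 * Encodable.encode s) % 2 = 0 := by omega
          have e2 : (2 * Encodable.encode s) / 2 = Encodable.encode s := by omega
          simp only [cen, if_pos e1, e2, Encodable.encodek, Option.getD_some]
        have h6 := hpos y (2 * Encodable.encode s)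
        show cen y (2 * Encodable.encode s) - ε y (2 * Encodable.encode s) / 3 < rr (xs D β y) ∧
          rr (xs D β y) < cen y (2 * Encodable.encode s) + ε y (2 * Encodable.encode s) / 3
        rw [h5]
        constructor <;> linarith

end Pool.Agent.Miller
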