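import Pool.Agent.Lib_helper75.Miller.Laver

/-!
Rational intervals, hole functions of closed nowhere dense sets, and the combinatorial core of the
statement that a set covered by the small sets `InU` added to a closed nowhere dense set stays
nowhere dense.
-/

set_option autoImplicit false

namespace Pool.Agent.Miller

/-! ### rational intervals -/

instance smz_nonempty : Nonempty {p : ℚ × ℚ // p.1 < p.2} := ⟨⟨(0, 1), zero_lt_one⟩⟩

/-- an enumeration of all rational intervals -/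
noncomputable def smzIvl : ℕ → {p : ℚ × ℚ // p.1 < p.2} :=
  (exists_surjective_nat {p : ℚ × ℚ // p.1 < p.2}).choose

theorem smzIvl_surj : Function.Surjective smzIvl :=
  (exists_surjective_nat {p : ℚ × ℚ // p.1 < p.2}).choose_spec

noncomputable def loQ (i : ℕ) : ℚ := (smzIvl i).1.1
noncomputable def hiQ (i : ℕ) : ℚ := (smzIvl i).1.2

theorem loQ_lt_hiQ (i : ℕ) : loQ i < hiQ i := (smzIvl i).2

theorem exists_idx {a b : ℚ} (h : a < b) : ∃ i, loQ i = a ∧ hiQ i = b := by
  obtain ⟨i, hi⟩ := smzIvl_surj ⟨(a, b), h⟩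
  refine ⟨i, ?_, ?_⟩
  · unfold loQ
    rw [hi]
  · unfold hiQ
    rw [hi]

/-- `g` chooses for each rational interval a rational subinterval (a hole of the set). -/
def IsHole (g : ℕ → ℕ) : Prop := ∀ i, loQ i ≤ loQ (g i) ∧ hiQ (g i) ≤ hiQ i

/-- `S` is a slalom with `card (S m) ≤ (m + 1) ^ m`. -/
def SmallS (S : ℕ → Finset ℕ) : Prop := ∀ m, (S m).card ≤ (m + 1) ^ m

/-! ### the exponents -/

theorem exists_smzF (i : ℕ) : ∃ n : ℕ, (1 / 2 : ℝ) ^ n ≤ ((hiQ i : ℝ) - loQ i) / 3 := by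
  have h : (0 : ℝ) < ((hiQ i : ℝ) - loQ i) / 3 := by
    have : (loQ i : ℝ) < hiQ i := by exact_mod_cast loQ_lt_hiQ i
    linarith
  obtain ⟨n, hn⟩ := exists_pow_lt_of_lt_one h (by norm_num : (1 / 2 : ℝ) < 1)
  exact ⟨n, hn.le⟩

noncomputable def smzF (i : ℕ) : ℕ := (exists_smzF i).choose

theorem smzF_spec (i : ℕ) : (1 / 2 : ℝ) ^ smzF i ≤ ((hiQ i : ℝ) - loQ i) / 3 :=
  (exists_smzF i).choose_spec

theorem smzGrid_lt (N e k : ℕ) :
    (-N - 1 + k * (1 / 2) ^ (e + 1) : ℚ) < -N - 1 + (k + 1) * (1 / 2) ^ (e + 1) := by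
  have : (0 : ℚ) < (1 / 2) ^ (e + 1) := by positivity
  linarith

/-- the index of the `k`-th grid interval of length `2^-(e+1)` of `[-N-1, N+1]` -/
noncomputable def smzGrid (N e k : ℕ) : ℕ := (exists_idx (smzGrid_lt N e k)).choose

theorem loQ_smzGrid (N e k : ℕ) : loQ (smzGrid N e k) = -N - 1 + k * (1 / 2) ^ (e + 1) :=
  (exists_idx (smzGrid_lt N e k)).choose_spec.1

theorem hiQ_smzGrid (N e k : ℕ) : hiQ (smzGrid N e k) = -N - 1 + (k + 1) * (1 / 2) ^ (e + 1) :=
  (exists_idx (smzGrid_lt N e k)).choose_spec.2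

/-- one step: an interval of length `2^-e` has, for each `y`, a subinterval of length
`2^-(smzMd g N e)` that is separated from `y`. -/
noncomputable def smzMd (g : ℕ → ℕ) (N e : ℕ) : ℕ :=
  e + 2 + ∑ k ∈ Finset.range ((2 * N + 2) * 2 ^ (e + 1)), smzF (g (smzGrid N e k))

theorem le_smzMd (g : ℕ → ℕ) (N e : ℕ) : e + 2 ≤ smzMd g N e := Nat.le_add_right _ _

/-- bound for the number of the triples `(t, j, c)` with `max t = m` -/
def smzW (m : ℕ) : ℕ :=
  1 + ∑ t ∈ (Finset.range m).powerset, ∑ j ∈ Finset.range (insert m t).card,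
    (Encodable.encode (j, insert m t) + 1) ^ Encodable.encode (j, insert m t)

noncomputable def et (g : ℕ → ℕ) (N : ℕ) : ℕ → ℕ
  | 0 => 0
  | m + 1 => (smzMd g N)^[smzW m] (et g N m)

theorem le_iterate_smzMd (g : ℕ → ℕ) (N n e : ℕ) : e + n ≤ (smzMd g N)^[n] e := by
  induction n with
  | zero => simp
  | succ n ih =>
    rw [Function.iterate_succ_apply']
    have := le_smzMd g N ((smzMd g N)^[n] e)
    omega

theorem iterate_smzMd_mono (g : ℕ → ℕ) (N e : ℕ) : Monotone fun n => (smzMd g N)^[n] e := by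
  refine monotone_nat_of_le_succ fun n => ?_
  show (smzMd g N)^[n] e ≤ (smzMd g N)^[n + 1] e
  rw [Function.iterate_succ_apply']
  have := le_smzMd g N ((smzMd g N)^[n] e)
  omega

theorem et_succ (g : ℕ → ℕ) (N m : ℕ) : et g N (m + 1) = (smzMd g N)^[smzW m] (et g N m) := rfl

theorem et_lt_succ (g : ℕ → ℕ) (N m : ℕ) : et g N m < et g N (m + 1) := by
  rw [et_succ]
  have h1 := le_iterate_smzMd g N (smzW m) (et g N m)
  have h2 : 1 ≤ smzW m := Nat.le_add_right _ _
  omega

theorem strictMono_et (g : ℕ → ℕ) (N : ℕ) : StrictMono (et g N) :=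
  strictMono_nat_of_lt_succ (et_lt_succ g N)

noncomputable def eps (g : ℕ → ℕ) (N : ℕ) (t : Finset ℕ) : ℝ := (1 / 2 : ℝ) ^ et g N (t.sup id + 1)
noncomputable def center (g : ℕ → ℕ) (N c : ℕ) (t : Finset ℕ) : ℝ := -N - 1 + (c + 1) * eps g N t
noncomputable def bnd (g : ℕ → ℕ) (N : ℕ) (t : Finset ℕ) : ℕ :=
  (2 * N + 2) * 2 ^ et g N (t.sup id + 1) + 1
noncomputable def cidx (g : ℕ → ℕ) (N : ℕ) (t : Finset ℕ) (l : ℝ) : ℕ :=
  min ⌊(l + N + 1) / eps g N t⌋₊ (bnd g N t - 1)

theorem eps_pos (g : ℕ → ℕ) (N : ℕ) (t : Finset ℕ) : 0 < eps g N t := by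
  unfold eps
  positivity

theorem eps_le_one (g : ℕ → ℕ) (N : ℕ) (t : Finset ℕ) : eps g N t ≤ 1 := by
  unfold eps
  exact pow_le_one₀ (by norm_num) (by norm_num)

theorem cidx_lt {g : ℕ → ℕ} {N : ℕ} {t : Finset ℕ} {l : ℝ} : cidx g N t l < bnd g N t := by
  have h1 : cidx g N t l ≤ bnd g N t - 1 := min_le_right _ _
  have h2 : 1 ≤ bnd g N t := Nat.le_add_left _ _
  omega

theorem abs_sub_center_lt {g : ℕ → ℕ} {N : ℕ} {t : Finset ℕ} {l r x : ℝ}
    (h : r - l < eps g N t) (hl : l < x) (hr : x < r) (hN : |x| ≤ N) :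
    |x - center g N (cidx g N t l) t| < eps g N t := by
  have he := eps_pos g N t
  have he1 := eps_le_one g N t
  rw [abs_le] at hN
  have h0 : 0 ≤ (l + N + 1) / eps g N t := div_nonneg (by linarith) he.le
  have h1 := Nat.floor_le h0
  have h2 := Nat.lt_floor_add_one ((l + N + 1) / eps g N t)
  have h3 : ⌊(l + N + 1) / eps g N t⌋₊ ≤ bnd g N t - 1 := by
    have h4 : (l + N + 1) / eps g N t ≤ ((2 * N + 2) * 2 ^ et g N (t.sup id + 1) : ℕ) := by
      rw [div_le_iff₀ he]
      have h5 : (((2 * N + 2) * 2 ^ et g N (t.sup id + 1) : ℕ) : ℝ) * eps g N t = 2 * N + 2 := by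
        unfold eps
        push_cast
        rw [mul_assoc, ← mul_pow]
        norm_num
      rw [h5]
      linarith
    have h6 := Nat.floor_le_floor h4
    rw [Nat.floor_natCast] at h6
    exact h6
  have h4 : cidx g N t l = ⌊(l + N + 1) / eps g N t⌋₊ := min_eq_left h3
  rw [h4]
  rw [le_div_iff₀ he] at h1
  rw [div_lt_iff₀ he] at h2
  unfold center
  rw [abs_lt]
  constructor <;> linarith

def InTau (g : ℕ → ℕ) (N : ℕ) (S : ℕ → Finset ℕ) (x : ℝ) (t : Finset ℕ) : Prop :=
  ∃ j < t.card, ∃ c ∈ S (Encodable.encode (j, t)), |x - center g N c t| < eps g N t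
def InU (g : ℕ → ℕ) (N : ℕ) (S : ℕ → Finset ℕ) (x : ℝ) (a b : ℕ) : Prop :=
  ∃ t : Finset ℕ, t.Nonempty ∧ a ≤ t.sup id ∧ t.sup id < b ∧ InTau g N S x t

/-- the interval `(α, β)` minus the `ε`-ball around `y` lies in a hole or outside `[-N, N]` -/
def SmzSep (g : ℕ → ℕ) (N : ℕ) (α β y ε : ℝ) : Prop :=
  (∃ i, (loQ (g i) : ℝ) ≤ α - y - ε ∧ β - y + ε ≤ hiQ (g i)) ∨ β - y + ε ≤ -N ∨ N ≤ α - y - ε

theorem SmzSep.mono {g : ℕ → ℕ} {N : ℕ} {α β α' β' y ε ε' : ℝ} (h : SmzSep g N α β y ε)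
    (hα : α ≤ α') (hβ : β' ≤ β) (hε : ε' ≤ ε) : SmzSep g N α' β' y ε' := by
  rcases h with ⟨i, h1, h2⟩ | h | h
  · exact Or.inl ⟨i, by linarith, by linarith⟩
  · exact Or.inr (Or.inl (by linarith))
  · exact Or.inr (Or.inr (by linarith))

def SepAll (g : ℕ → ℕ) (N : ℕ) (S : ℕ → Finset ℕ) (a b j : ℕ) : Prop :=
  ∀ t : Finset ℕ, t.Nonempty → a ≤ t.sup id → t.sup id < b → ∀ i < t.card,
    ∀ c ∈ S (Encodable.encode (i, t)),
      SmzSep g N (loQ j) (hiQ j) (center g N c t) (eps g N t)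

theorem SepAll.avoid {g : ℕ → ℕ} {N : ℕ} {S : ℕ → Finset ℕ} {a b j : ℕ}
    (h : SepAll g N S a b j) {u v : ℝ} (hu : InU g N S u a b) (hv : |v| ≤ N)
    (hv' : ∀ i, ¬ ((loQ (g i) : ℝ) < v ∧ v < hiQ (g i))) :
    ¬ ((loQ j : ℝ) < u + v ∧ u + v < hiQ j) := by
  rintro ⟨h1, h2⟩
  obtain ⟨t, ht, hat, htb, i, hi, c, hc, hucc⟩ := hu
  rw [abs_lt] at hucc
  rw [abs_le] at hv
  rcases h t ht hat htb i hi c hc with ⟨k, h3, h4⟩ | h3 | h3
  · exact hv' k ⟨by linarith, by linarith⟩
  · linarith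
  · linarith

/-! ### the step and its iteration -/

theorem smz_half_le {m n : ℕ} (h : m ≤ n) : (1 / 2 : ℝ) ^ n ≤ (1 / 2) ^ m :=
  pow_le_pow_of_le_one (by norm_num) (by norm_num) h

theorem smz_step {g : ℕ → ℕ} (hg : IsHole g) (N e : ℕ) {α β : ℝ} (h : (1 / 2) ^ e ≤ β - α)
    (y : ℝ) : ∃ α' β', α ≤ α' ∧ β' ≤ β ∧ (1 / 2) ^ smzMd g N e ≤ β' - α' ∧
      SmzSep g N α' β' y ((1 / 2) ^ smzMd g N e) := by
  set δ : ℝ := (1 / 2) ^ (e + 1) with hδ
  have hδ0 : 0 < δ := by positivity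
  have hδ2 : (1 / 2 : ℝ) ^ e = 2 * δ := by
    rw [hδ, pow_succ]
    ring
  have hη1 : (1 / 2 : ℝ) ^ smzMd g N e ≤ 1 := pow_le_one₀ (by norm_num) (by norm_num)
  have hηδ : (1 / 2 : ℝ) ^ smzMd g N e ≤ δ := smz_half_le (by have := le_smzMd g N e; omega)
  set k : ℤ := ⌈(α - y + N + 1) / δ⌉ with hk
  have hk1 : (α - y + N + 1) / δ ≤ k := Int.le_ceil _
  have hk2 : (k : ℝ) < (α - y + N + 1) / δ + 1 := Int.ceil_lt_add_one _
  rw [div_le_iff₀ hδ0] at hk1
  have hk3 : (k : ℝ) * δ < α - y + N + 1 + δ := by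
    have := mul_lt_mul_of_pos_right hk2 hδ0
    rw [add_mul, div_mul_cancel₀ _ hδ0.ne', one_mul] at this
    exact this
  rcases lt_or_ge k 0 with hneg | hpos
  · refine ⟨y - N - 1 + k * δ, y - N - 1 + (k + 1) * δ, by linarith, by linarith, by linarith,
      Or.inr (Or.inl ?_)⟩
    have h1 : ((k : ℝ) + 1) ≤ 0 := by exact_mod_cast hneg
    have h2 : ((k : ℝ) + 1) * δ ≤ 0 := mul_nonpos_of_nonpos_of_nonneg h1 hδ0.le
    linarith
  · obtain ⟨n, hn⟩ := Int.eq_ofNat_of_zero_le hpos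
    have hkn : (k : ℝ) = n := by rw [hn]; simp
    rw [hkn] at hk1 hk3
    rcases lt_or_ge n ((2 * N + 2) * 2 ^ (e + 1)) with hlt | hge
    · set i := smzGrid N e n with hi
      have hlo : (loQ i : ℝ) = -N - 1 + n * δ := by
        rw [hi, loQ_smzGrid]
        push_cast
        rfl
      have hhi : (hiQ i : ℝ) = -N - 1 + (n + 1) * δ := by
        rw [hi, hiQ_smzGrid]
        push_cast
        rfl
      have h1 : (loQ i : ℝ) ≤ loQ (g i) := by exact_mod_cast (hg i).1
      have h2 : (hiQ (g i) : ℝ) ≤ hiQ i := by exact_mod_cast (hg i).2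
      have h3 := smzF_spec (g i)
      have h4 : (1 / 2 : ℝ) ^ smzMd g N e ≤ ((hiQ (g i) : ℝ) - loQ (g i)) / 3 := by
        refine le_trans (smz_half_le ?_) h3
        have h5 : smzF (g (smzGrid N e n)) ≤
            ∑ k ∈ Finset.range ((2 * N + 2) * 2 ^ (e + 1)), smzF (g (smzGrid N e k)) :=
          Finset.single_le_sum (f := fun k => smzF (g (smzGrid N e k)))
            (fun _ _ => Nat.zero_le _) (Finset.mem_range.2 hlt)
        exact h5.trans (Nat.le_add_left _ _)
      have h6 : (0 : ℝ) < (1 / 2 : ℝ) ^ smzMd g N e := by positivity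
      refine ⟨y + loQ (g i) + ((hiQ (g i) : ℝ) - loQ (g i)) / 3,
        y + hiQ (g i) - ((hiQ (g i) : ℝ) - loQ (g i)) / 3, by linarith, by linarith, by linarith,
        Or.inl ⟨i, by linarith, by linarith⟩⟩
    · refine ⟨y - N - 1 + n * δ, y - N - 1 + (n + 1) * δ, by linarith, by linarith, by linarith,
        Or.inr (Or.inr ?_)⟩
      have h1 : (((2 * N + 2) * 2 ^ (e + 1) : ℕ) : ℝ) ≤ n := by exact_mod_cast hge
      have h2 : (((2 * N + 2) * 2 ^ (e + 1) : ℕ) : ℝ) * δ = 2 * N + 2 := by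
        rw [hδ]
        push_cast
        rw [mul_assoc, ← mul_pow]
        norm_num
      have h3 := mul_le_mul_of_nonneg_right h1 hδ0.le
      rw [h2] at h3
      linarith

theorem smz_list {g : ℕ → ℕ} (hg : IsHole g) (N : ℕ) (L : List ℝ) : ∀ (e : ℕ) {α β : ℝ},
    (1 / 2) ^ e ≤ β - α → ∃ α' β', α ≤ α' ∧ β' ≤ β ∧
      (1 / 2) ^ ((smzMd g N)^[L.length] e) ≤ β' - α' ∧
      ∀ y ∈ L, SmzSep g N α' β' y ((1 / 2) ^ ((smzMd g N)^[L.length] e)) := by
  induction L with
  | nil =>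
    intro e α β h
    exact ⟨α, β, le_rfl, le_rfl, h, fun y hy => absurd hy List.not_mem_nil⟩
  | cons y L ih =>
    intro e α β h
    obtain ⟨α₁, β₁, h1, h2, h3, h4⟩ := smz_step hg N e h y
    obtain ⟨α₂, β₂, h5, h6, h7, h8⟩ := ih (smzMd g N e) h3
    refine ⟨α₂, β₂, h1.trans h5, h6.trans h2, ?_, ?_⟩
    · rw [List.length_cons, Function.iterate_succ_apply]
      exact h7
    · intro z hz
      rw [List.length_cons, Function.iterate_succ_apply]
      rcases List.mem_cons.1 hz with rfl | hz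
      · refine h4.mono h5 h6 (smz_half_le ?_)
        have := le_iterate_smzMd g N L.length (smzMd g N e)
        omega
      · exact h8 z hz

/-- the triples with `max t = m` -/
def smzT (S : ℕ → Finset ℕ) (m : ℕ) : Finset (Finset ℕ × ℕ × ℕ) :=
  (Finset.range m).powerset.biUnion fun t => (Finset.range (insert m t).card).biUnion fun j =>
    (S (Encodable.encode (j, insert m t))).image fun c => (insert m t, j, c)

theorem card_smzT {S : ℕ → Finset ℕ} (hS : SmallS S) (m : ℕ) : (smzT S m).card ≤ smzW m := by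
  unfold smzT smzW
  refine le_trans Finset.card_biUnion_le ?_
  refine le_trans (Finset.sum_le_sum fun t _ => ?_) (Nat.le_add_left _ _)
  refine le_trans Finset.card_biUnion_le (Finset.sum_le_sum fun j _ => ?_)
  exact Finset.card_image_le.trans (hS _)

theorem mem_smzT {S : ℕ → Finset ℕ} {m : ℕ} {t : Finset ℕ} (ht : t.Nonempty) (hm : t.sup id = m)
    {j c : ℕ} (hj : j < t.card) (hc : c ∈ S (Encodable.encode (j, t))) : (t, j, c) ∈ smzT S m := by
  have h1 : m ∈ t := by
    obtain ⟨n, hn, hn2⟩ := Finset.exists_mem_eq_sup t ht id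
    rw [← hm, hn2]
    exact hn
  have h2 : insert m (t.erase m) = t := Finset.insert_erase h1
  unfold smzT
  rw [Finset.mem_biUnion]
  refine ⟨t.erase m, ?_, ?_⟩
  · rw [Finset.mem_powerset]
    intro n hn
    rw [Finset.mem_range]
    have h3 : n ≤ t.sup id := Finset.le_sup (f := id) (Finset.mem_of_mem_erase hn)
    have h4 : n ≠ m := Finset.ne_of_mem_erase hn
    omega
  · rw [h2, Finset.mem_biUnion]
    exact ⟨j, Finset.mem_range.2 hj, Finset.mem_image.2 ⟨c, hc, rfl⟩⟩

theorem smz_level {g : ℕ → ℕ} (hg : IsHole g) (N : ℕ) {S : ℕ → Finset ℕ} (hS : SmallS S) (m : ℕ)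
    {α β : ℝ} (h : (1 / 2) ^ et g N m ≤ β - α) : ∃ α' β', α ≤ α' ∧ β' ≤ β ∧
      (1 / 2) ^ et g N (m + 1) ≤ β' - α' ∧
      ∀ t : Finset ℕ, t.Nonempty → t.sup id = m → ∀ i < t.card,
        ∀ c ∈ S (Encodable.encode (i, t)), SmzSep g N α' β' (center g N c t) (eps g N t) := by
  obtain ⟨α', β', h1, h2, h3, h4⟩ := smz_list hg N
    ((smzT S m).toList.map fun p => center g N p.2.2 p.1) (et g N m) h
  rw [List.length_map, Finset.length_toList] at h3 h4
  have h5 : (smzMd g N)^[(smzT S m).card] (et g N m) ≤ et g N (m + 1) :=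
    iterate_smzMd_mono g N (et g N m) (card_smzT hS m)
  refine ⟨α', β', h1, h2, (smz_half_le h5).trans h3, fun t ht hm i hi c hc => ?_⟩
  refine (h4 (center g N c t) ?_).mono le_rfl le_rfl ?_
  · rw [List.mem_map]
    exact ⟨(t, i, c), Finset.mem_toList.2 (mem_smzT ht hm hi hc), rfl⟩
  · unfold eps
    rw [hm]
    exact smz_half_le h5

theorem smz_levels {g : ℕ → ℕ} (hg : IsHole g) (N : ℕ) {S : ℕ → Finset ℕ} (hS : SmallS S) (a : ℕ)
    {α β : ℝ} (h : (1 / 2) ^ et g N a ≤ β - α) (n : ℕ) : ∃ α' β', α ≤ α' ∧ β' ≤ β ∧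
      (1 / 2) ^ et g N (a + n) ≤ β' - α' ∧
      ∀ t : Finset ℕ, t.Nonempty → a ≤ t.sup id → t.sup id < a + n → ∀ i < t.card,
        ∀ c ∈ S (Encodable.encode (i, t)), SmzSep g N α' β' (center g N c t) (eps g N t) := by
  induction n with
  | zero =>
    refine ⟨α, β, le_rfl, le_rfl, h, fun t _ h1 h2 => ?_⟩
    omega
  | succ n ih =>
    obtain ⟨α₁, β₁, h1, h2, h3, h4⟩ := ih
    obtain ⟨α₂, β₂, h5, h6, h7, h8⟩ := smz_level hg N hS (a + n) h3
    refine ⟨α₂, β₂, h1.trans h5, h6.trans h2, h7, fun t ht hat htb i hi c hc => ?_⟩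
    rcases lt_or_ge (t.sup id) (a + n) with h9 | h9
    · exact (h4 t ht hat h9 i hi c hc).mono h5 h6 le_rfl
    · exact h8 t ht (by omega) i hi c hc

theorem exists_sepAll {g : ℕ → ℕ} (hg : IsHole g) (N : ℕ) {S : ℕ → Finset ℕ} (hS : SmallS S)
    {π : ℕ → ℕ} (hπ : StrictMono π) (l i : ℕ) :
    ∃ k, l ≤ k ∧ ∃ j, loQ i ≤ loQ j ∧ hiQ j ≤ hiQ i ∧ SepAll g N S (π k) (π (k+1)) j := by
  have hlt : (loQ i : ℝ) < hiQ i := by exact_mod_cast loQ_lt_hiQ i
  obtain ⟨n, hn⟩ := exists_pow_lt_of_lt_one (sub_pos.2 hlt) (by norm_num : (1 / 2 : ℝ) < 1)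
  set k := max l n with hk
  have h1 : n ≤ et g N (π k) :=
    ((le_max_right l n).trans (hπ.id_le k)).trans ((strictMono_et g N).id_le (π k))
  have h2 : (1 / 2 : ℝ) ^ et g N (π k) ≤ hiQ i - loQ i := (smz_half_le h1).trans hn.le
  have h3 : π k < π (k + 1) := hπ (Nat.lt_succ_self k)
  obtain ⟨α, β, h4, h5, h6, h7⟩ := smz_levels hg N hS (π k) h2 (π (k + 1) - π k)
  have h8 : α < β := by
    have : (0 : ℝ) < (1 / 2) ^ et g N (π k + (π (k + 1) - π k)) := by positivity
    linarith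
  obtain ⟨p, hp1, hp2⟩ := exists_rat_btwn h8
  obtain ⟨q, hq1, hq2⟩ := exists_rat_btwn hp2
  have hpq : p < q := by exact_mod_cast hq1
  obtain ⟨j, hj1, hj2⟩ := exists_idx hpq
  refine ⟨k, le_max_left _ _, j, ?_, ?_, ?_⟩
  · rw [hj1]
    have : (loQ i : ℝ) ≤ p := by linarith
    exact_mod_cast this
  · rw [hj2]
    have : (q : ℝ) ≤ hiQ i := by linarith
    exact_mod_cast this
  · intro t ht hat htb i' hi' c hc
    refine (h7 t ht hat (by omega) i' hi' c hc).mono ?_ ?_ le_rfl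
    · rw [hj1]
      exact hp1.le
    · rw [hj2]
      exact hq2.le

/-! ### measurability -/

section Meas

variable {Y : Type*} [MeasurableSpace Y] {g : Y → ℕ → ℕ} (hg : Measurable g)
  {S : Y → ℕ → Finset ℕ} (hS : Measurable S) {l x : Y → ℝ} (hl : Measurable l)
  (hx : Measurable x) {a b : Y → ℕ} (ha : Measurable a) (hb : Measurable b)

include hg in
theorem measurable_smzMd (N : ℕ) {e : Y → ℕ} (he : Measurable e) :
    Measurable fun y => smzMd (g y) N (e y) := by
  refine measurable_comp_countable (f := fun y e => smzMd (g y) N e) (fun e => ?_) he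
  unfold smzMd
  refine measurable_const.add (Finset.measurable_fun_sum _ fun k _ => ?_)
  exact (measurable_from_nat (f := smzF)).comp ((measurable_pi_apply _).comp hg)

include hg in
theorem measurable_iterate_smzMd (N n : ℕ) {e : Y → ℕ} (he : Measurable e) :
    Measurable fun y => (smzMd (g y) N)^[n] (e y) := by
  induction n with
  | zero => exact he
  | succ n ih =>
    simp only [Function.iterate_succ_apply']
    exact measurable_smzMd hg N ih

include hg in
theorem measurable_et (N m : ℕ) : Measurable fun y => et (g y) N m := by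
  induction m with
  | zero => exact measurable_const
  | succ m ih =>
    simp only [et_succ]
    exact measurable_iterate_smzMd hg N _ ih

include hg in
theorem measurable_eps (N : ℕ) (t : Finset ℕ) : Measurable fun y => eps (g y) N t := by
  unfold eps
  exact (measurable_from_nat (f := fun n => (1 / 2 : ℝ) ^ n)).comp (measurable_et hg N _)

include hg in
theorem measurable_bnd (N : ℕ) (t : Finset ℕ) : Measurable fun y => bnd (g y) N t := by
  unfold bnd
  exact (measurable_from_nat (f := fun n => (2 * N + 2) * 2 ^ n + 1)).comp (measurable_et hg N _)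

include hg hl in
theorem measurable_cidx (N : ℕ) (t : Finset ℕ) : Measurable fun y => cidx (g y) N t (l y) := by
  unfold cidx
  refine Measurable.min (Nat.measurable_floor.comp ?_) ?_
  · exact ((hl.add_const _).add_const _).div (measurable_eps hg N t)
  · exact (measurable_from_nat (f := fun n => n - 1)).comp (measurable_bnd hg N t)

include hg in
theorem measurable_center (N c : ℕ) (t : Finset ℕ) : Measurable fun y => center (g y) N c t := by
  unfold center
  exact measurable_const.add (measurable_const.mul (measurable_eps hg N t))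

include hS in
theorem measurableSet_mem_smz (e c : ℕ) : MeasurableSet {y | c ∈ S y e} := by
  have h1 : Measurable fun y => S y e := (measurable_pi_apply e).comp hS
  exact h1 (MeasurableSet.of_discrete (s := {A : Finset ℕ | c ∈ A}))

include hg hS hx in
theorem measurableSet_inTau (N : ℕ) (t : Finset ℕ) :
    MeasurableSet {y | InTau (g y) N (S y) (x y) t} := by
  have h1 : {y | InTau (g y) N (S y) (x y) t} = ⋃ j : ℕ, ⋃ c : ℕ,
      ({_y | j < t.card} ∩ {y | c ∈ S y (Encodable.encode (j, t))}) ∩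
        {y | |x y - center (g y) N c t| < eps (g y) N t} := by
    ext y
    simp only [InTau, Set.mem_ofPred_eq, Set.mem_iUnion, Set.mem_inter_iff]
    constructor
    · rintro ⟨j, hj, c, hc, h⟩
      exact ⟨j, c, ⟨hj, hc⟩, h⟩
    · rintro ⟨j, c, ⟨hj, hc⟩, h⟩
      exact ⟨j, hj, c, hc, h⟩
  rw [h1]
  refine MeasurableSet.iUnion fun j => MeasurableSet.iUnion fun c =>
    ((MeasurableSet.const _).inter (measurableSet_mem_smz hS _ c)).inter ?_
  exact measurableSet_lt (hx.sub (measurable_center hg N c t)).abs (measurable_eps hg N t)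

include hg hS hx ha hb in
theorem measurableSet_inU (N : ℕ) :
    MeasurableSet {y | InU (g y) N (S y) (x y) (a y) (b y)} := by
  have h1 : {y | InU (g y) N (S y) (x y) (a y) (b y)} = ⋃ t : Finset ℕ,
      ({_y | t.Nonempty} ∩ ({y | a y ≤ t.sup id} ∩ {y | t.sup id < b y})) ∩
        {y | InTau (g y) N (S y) (x y) t} := by
    ext y
    simp only [InU, Set.mem_ofPred_eq, Set.mem_iUnion, Set.mem_inter_iff]
    constructor
    · rintro ⟨t, h1, h2, h3, h4⟩
      exact ⟨t, ⟨h1, h2, h3⟩, h4⟩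
    · rintro ⟨t, ⟨h1, h2, h3⟩, h4⟩
      exact ⟨t, h1, h2, h3, h4⟩
  rw [h1]
  refine MeasurableSet.iUnion fun t => ((MeasurableSet.const _).inter
    ((measurableSet_le ha measurable_const).inter (measurableSet_lt measurable_const hb))).inter
      (measurableSet_inTau hg hS hx N t)

include hg in
theorem measurableSet_smzSep (N c : ℕ) (t : Finset ℕ) (j : ℕ) :
    MeasurableSet {y | SmzSep (g y) N (loQ j) (hiQ j) (center (g y) N c t) (eps (g y) N t)} := by
  have h0 : ∀ i, Measurable fun y => g y i := fun i => (measurable_pi_apply i).comp hg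
  have hlo : ∀ i, Measurable fun y => ((loQ (g y i) : ℚ) : ℝ) := fun i =>
    (measurable_from_nat (f := fun n => ((loQ n : ℚ) : ℝ))).comp (h0 i)
  have hhi : ∀ i, Measurable fun y => ((hiQ (g y i) : ℚ) : ℝ) := fun i =>
    (measurable_from_nat (f := fun n => ((hiQ n : ℚ) : ℝ))).comp (h0 i)
  have hc := measurable_center hg N c t
  have he := measurable_eps hg N t
  have h1 : {y | SmzSep (g y) N (loQ j) (hiQ j) (center (g y) N c t) (eps (g y) N t)} =
      (⋃ i : ℕ, ({y | ((loQ (g y i) : ℚ) : ℝ) ≤ loQ j - center (g y) N c t - eps (g y) N t} ∩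
        {y | (hiQ j : ℝ) - center (g y) N c t + eps (g y) N t ≤ ((hiQ (g y i) : ℚ) : ℝ)})) ∪
      ({y | (hiQ j : ℝ) - center (g y) N c t + eps (g y) N t ≤ -(N : ℝ)} ∪
        {y | (N : ℝ) ≤ loQ j - center (g y) N c t - eps (g y) N t}) := by
    ext y
    simp only [SmzSep, Set.mem_ofPred_eq, Set.mem_iUnion, Set.mem_inter_iff, Set.mem_union]
  rw [h1]
  refine (MeasurableSet.iUnion fun i => ?_).union ?_
  · exact (measurableSet_le (hlo i) ((measurable_const.sub hc).sub he)).inter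
      (measurableSet_le ((measurable_const.sub hc).add he) (hhi i))
  · exact (measurableSet_le ((measurable_const.sub hc).add he) measurable_const).union
      (measurableSet_le measurable_const ((measurable_const.sub hc).sub he))

include hg hS ha hb in
theorem measurableSet_sepAll (N j : ℕ) :
    MeasurableSet {y | SepAll (g y) N (S y) (a y) (b y) j} := by
  have h1 : {y | SepAll (g y) N (S y) (a y) (b y) j} = ⋂ t : Finset ℕ, ⋂ i : ℕ, ⋂ c : ℕ,
      ((({_y | t.Nonempty} ∩ {y | a y ≤ t.sup id}) ∩ ({y | t.sup id < b y} ∩ {_y | i < t.card})) ∩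
        {y | c ∈ S y (Encodable.encode (i, t))})ᶜ ∪
        {y | SmzSep (g y) N (loQ j) (hiQ j) (center (g y) N c t) (eps (g y) N t)} := by
    ext y
    simp only [SepAll, Set.mem_ofPred_eq, Set.mem_iInter, Set.mem_inter_iff, Set.mem_union,
      Set.mem_compl_iff]
    constructor
    · intro h t i c
      by_cases h2 : ((t.Nonempty ∧ a y ≤ t.sup id) ∧ t.sup id < b y ∧ i < t.card) ∧
          c ∈ S y (Encodable.encode (i, t))
      · exact Or.inr (h t h2.1.1.1 h2.1.1.2 h2.1.2.1 i h2.1.2.2 c h2.2)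
      · exact Or.inl h2
    · intro h t ht hat htb i hi c hc
      rcases h t i c with h2 | h2
      · exact absurd ⟨⟨⟨ht, hat⟩, htb, hi⟩, hc⟩ h2
      · exact h2
  rw [h1]
  refine MeasurableSet.iInter fun t => MeasurableSet.iInter fun i => MeasurableSet.iInter fun c =>
    MeasurableSet.union (MeasurableSet.compl ?_) (measurableSet_smzSep hg N c t j)
  exact (((MeasurableSet.const _).inter (measurableSet_le ha measurable_const)).inter
    ((measurableSet_lt measurable_const hb).inter (MeasurableSet.const _))).inter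
      (measurableSet_mem_smz hS _ c)

end Meas

end Pool.Agent.Miller
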